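import Pool.Agent.H290R4.Coc5

/-!
# Idempotent matrices over group rings of torsion-free groups and group cocycles

Let `G` be a torsion-free group, `e` an idempotent matrix over `ℤ[G]`, `n ≥ 1`, and `F` an
alternating homogeneous `2n`-cocycle of `G` with values in `ℤ`.  Then

`∑ tr (e_{g_0} e_{g_1} ⋯ e_{g_{2n}}) F (1, g_0, g_0 g_1, …, g_0 ⋯ g_{2n-1}) = 0`,

the sum over all `g_0, …, g_{2n}` with product `1`, where `e = ∑ e_g g` with matrices `e_g` over
`ℤ`.  This is the pairing of the class of `e` in `K_0(ℤG)` with the class of `F` in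
`H^{2n}(G)`, through the component at the conjugacy class of `1` of the Chern-Connes character.
The same holds over every commutative ring `k`, for cocycles with values in a `k`-module `M` which
is torsion-free and has no non-zero divisible elements; for torsion-free `M` the sum is always
divisible by all integers.

The local form: `k` a commutative ring, `F` with values in a `k`-module `M`, `p` a prime such that
`G` has no element of order `p`; then `centralBinom n` times the pairing is divisible by all powers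
of `p` in `M`.
-/

set_option autoImplicit false

namespace Pool.Agent.Results.MP_16fe43_al.CocyclePairing

open Pool.Agent.H290R4.Coc

universe u1 u2 u3 u4

lemma div_coprime {M : Type u4} [AddCommGroup M] {a b : ℕ} (hab : Nat.Coprime a b) {z : M}
    (ha : ∃ y : M, a • y = z) (hb : ∃ y : M, b • y = z) : ∃ y : M, (a * b) • y = z := by
  obtain ⟨y, hy⟩ := ha
  obtain ⟨y', hy'⟩ := hb
  have h := Nat.isCoprime_iff_coprime.2 hab
  obtain ⟨u, v, huv⟩ := h
  refine ⟨u • y' + v • y, ?_⟩
  have h1 : z = (u * a + v * b : ℤ) • z := by rw [huv, one_smul]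
  have h2 : (a : ℤ) • y = z := by rw [natCast_zsmul]; exact hy
  have h3 : (b : ℤ) • y' = z := by rw [natCast_zsmul]; exact hy'
  rw [← natCast_zsmul, Nat.cast_mul, h1, add_smul, smul_add]
  nth_rewrite 1 [← h3]
  rw [← h2]
  simp only [smul_smul]
  congr 2 <;> ring

lemma div_all {M : Type u4} [AddCommGroup M] {z : M}
    (h : ∀ p : ℕ, p.Prime → ∀ m : ℕ, ∃ y : M, p ^ m • y = z) (N : ℕ) (hN : N ≠ 0) :
    ∃ y : M, N • y = z := by
  induction N using Nat.recOnPosPrimePosCoprime with
  | zero => exact absurd rfl hN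
  | one => exact ⟨z, one_smul _ _⟩
  | prime_pow p n hp _ => exact h p hp n
  | coprime a b ha hb hab iha ihb => exact div_coprime hab (iha (by omega)) (ihb (by omega))

lemma loc (k : Type u3) [CommRing k] (G : Type u1) [Group G] (p : ℕ) (hp : p.Prime)
    (hG : ∀ g : G, g ^ p = 1 → g = 1) (M : Type u4) [AddCommGroup M] [Module k M]
    (d : Type u2) [Fintype d] [DecidableEq d] (e : Matrix d d (MonoidAlgebra k G))
    (he : e * e = e) (n : ℕ) (hn : 1 ≤ n) (F : List G → M) (hF : Coy (2 * n) F) (m : ℕ) :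
    ∃ y : M, p ^ m • y = Nat.centralBinom n • pairing F (2 * n + 1) e :=
  main hp hG hn hF e he m

lemma glob (k : Type u3) [CommRing k] (G : Type u1) [Group G]
    (hG : ∀ g : G, g ≠ 1 → ∀ m : ℕ, 1 ≤ m → g ^ m ≠ 1) (M : Type u4) [AddCommGroup M] [Module k M]
    (hM : ∀ (c : ℕ) (x : M), c ≠ 0 → c • x = 0 → x = 0)
    (d : Type u2) [Fintype d] [DecidableEq d] (e : Matrix d d (MonoidAlgebra k G))
    (he : e * e = e) (n : ℕ) (hn : 1 ≤ n) (F : List G → M) (hF : Coy (2 * n) F) (N : ℕ)
    (hN : 1 ≤ N) : ∃ y : M, N • y = pairing F (2 * n + 1) e := by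
  have hc : Nat.centralBinom n ≠ 0 := Nat.centralBinom_ne_zero n
  obtain ⟨y, hy⟩ := div_all (z := Nat.centralBinom n • pairing F (2 * n + 1) e)
    (fun p hp m => loc k G p hp (fun g hg => by
      by_contra hne
      exact hG g hne p hp.one_lt.le hg) M d e he n hn F hF m)
    (Nat.centralBinom n * N) (Nat.mul_ne_zero hc (by omega))
  refine ⟨y, ?_⟩
  rw [← sub_eq_zero]
  refine hM _ _ hc ?_
  rw [smul_sub, ← hy, mul_smul, sub_self]

theorem result :
    (∀ (k : Type u3) [CommRing k] (G : Type u1) [Group G],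
      (∀ g : G, g ≠ 1 → ∀ m : ℕ, 1 ≤ m → g ^ m ≠ 1) →
      ∀ (M : Type u4) [AddCommGroup M] [Module k M],
        (∀ (c : ℕ) (x : M), c ≠ 0 → c • x = 0 → x = 0) →
      ∀ (d : Type u2) [Fintype d] [DecidableEq d] (e : Matrix d d (MonoidAlgebra k G)),
        e * e = e → ∀ n : ℕ, 1 ≤ n → ∀ F : List G → M, Coy (2 * n) F →
          (∀ N : ℕ, 1 ≤ N → ∃ y : M, N • y = pairing F (2 * n + 1) e) ∧
          ((∀ x : M, (∀ N : ℕ, 1 ≤ N → ∃ y : M, N • y = x) → x = 0) →
            pairing F (2 * n + 1) e = 0)) ∧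
    (∀ (G : Type u1) [Group G], (∀ g : G, g ≠ 1 → ∀ m : ℕ, 1 ≤ m → g ^ m ≠ 1) →
      ∀ (d : Type u2) [Fintype d] [DecidableEq d] (e : Matrix d d (MonoidAlgebra ℤ G)),
        e * e = e → ∀ n : ℕ, 1 ≤ n → ∀ F : List G → ℤ, Coy (2 * n) F →
          pairing F (2 * n + 1) e = 0) ∧
    (∀ (k : Type u3) [CommRing k] (G : Type u1) [Group G] (p : ℕ), p.Prime →
      (∀ g : G, g ^ p = 1 → g = 1) →
      ∀ (M : Type u4) [AddCommGroup M] [Module k M]
        (d : Type u2) [Fintype d] [DecidableEq d] (e : Matrix d d (MonoidAlgebra k G)),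
        e * e = e → ∀ n : ℕ, 1 ≤ n → ∀ F : List G → M, Coy (2 * n) F →
          ∀ m : ℕ, ∃ y : M, p ^ m • y = Nat.centralBinom n • pairing F (2 * n + 1) e) := by
  refine ⟨?_, ?_, ?_⟩
  · intro k _ G _ hG M _ _ hM d _ _ e he n hn F hF
    have h1 := glob k G hG M hM d e he n hn F hF
    exact ⟨h1, fun h => h _ h1⟩
  · intro G _ hG d _ _ e he n hn F hF
    have h1 := glob ℤ G hG ℤ (fun c x hc hx => by
      rw [nsmul_eq_mul, mul_eq_zero] at hx
      exact hx.resolve_left (by exact_mod_cast hc)) d e he n hn F hF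
    generalize pairing F (2 * n + 1) e = x at h1
    obtain ⟨y, hy⟩ := h1 (x.natAbs + 1) (by omega)
    have h5 := hy.symm
    rw [nsmul_eq_mul] at h5
    exact Int.eq_zero_of_abs_lt_dvd ⟨y, h5⟩ (by rw [Int.abs_eq_natAbs]; push_cast; omega)
  · intro k _ G _ p hp hG M _ _ d _ _ e he n hn F hF m
    exact loc k G p hp hG M d e he n hn F hF m

end Pool.Agent.Results.MP_16fe43_al.CocyclePairing
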